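import Mathlib

namespace Pool.Agent.Results.MP_698df0_al.Fails

open MvPolynomial Relation

/-- Position of an integer in the order `0, -1, 1, -2, 2, -3, 3, …`. -/
def rk (a : ℤ) : ℕ := if 0 ≤ a then 2 * a.natAbs else 2 * a.natAbs - 1

/-- Buchberger's multiplier function. -/
def M (a c : ℤ) : ℤ :=
  if 0 < a * c ∧ rk (a - c) < rk a then M (a - c) c + 1
  else if a * c < 0 ∧ rk (a + c) < rk a then M (a + c) c - 1
  else 0
termination_by rk a
decreasing_by all_goals simp_all

/-- The least reducible coefficient. -/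
def L (c : ℤ) : ℤ := if c % 2 = 0 then |c| / 2 else -((|c| + 1) / 2)

/-- The least common reducible. -/
def LCR (c₁ c₂ : ℤ) : ℤ := if rk (L c₁) < rk (L c₂) then L c₂ else L c₁

abbrev R (n : ℕ) : Type := MvPolynomial (Fin n) ℤ

variable {n : ℕ} (m : MonomialOrder (Fin n))

/-- One reduction step modulo `F`. -/
def Red (F : Finset (R n)) (g h : R n) : Prop :=
  ∃ f ∈ F, f ≠ 0 ∧ ∃ (b : ℤ) (u : Fin n →₀ ℕ), coeff (u + m.degree f) g ≠ 0 ∧
    rk (coeff (u + m.degree f) g - b * m.leadingCoeff f) < rk (coeff (u + m.degree f) g) ∧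
    h = g - C b * monomial u 1 * f

/-- Irreducible modulo `F`. -/
def Irr (F : Finset (R n)) (g : R n) : Prop := ∀ h, ¬ Red m F g h

/-- A normal form algorithm. -/
def IsNFA (S : Finset (R n) → R n → R n) : Prop :=
  ∀ F g, ReflTransGen (Red m F) g (S F g) ∧ Irr m F (S F g)

/-- Gröbner basis: every polynomial has exactly one normal form. -/
def IsGB (F : Finset (R n)) : Prop := ∀ g, ∃! h, ReflTransGen (Red m F) g h ∧ Irr m F h

/-- The first member of the critical pair of `f₁, f₂`. -/
noncomputable def crit₁ (f₁ f₂ : R n) : R n :=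
  monomial (m.degree f₁ ⊔ m.degree f₂) (LCR (m.leadingCoeff f₁) (m.leadingCoeff f₂)) -
    C (M (LCR (m.leadingCoeff f₁) (m.leadingCoeff f₂)) (m.leadingCoeff f₁)) *
      monomial (m.degree f₁ ⊔ m.degree f₂ - m.degree f₁) 1 * f₁

/-- The second member of the critical pair of `f₁, f₂`. -/
noncomputable def crit₂ (f₁ f₂ : R n) : R n :=
  monomial (m.degree f₁ ⊔ m.degree f₂) (LCR (m.leadingCoeff f₁) (m.leadingCoeff f₂)) -
    C (M (LCR (m.leadingCoeff f₁) (m.leadingCoeff f₂)) (m.leadingCoeff f₂)) *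
      monomial (m.degree f₁ ⊔ m.degree f₂ - m.degree f₂) 1 * f₂

open Classical in
/-- One pass of the loop of Algorithm A', on states `(G, B)`. -/
def Step (S : Finset (R n) → R n → R n)
    (x y : Finset (R n) × Finset (Sym2 (R n))) : Prop :=
  ∃ f₁ f₂ : R n, s(f₁, f₂) ∈ x.2 ∧
    ((S x.1 (crit₁ m f₁ f₂ - crit₂ m f₁ f₂) = 0 ∧ y = (x.1, x.2.erase s(f₁, f₂))) ∨
     (S x.1 (crit₁ m f₁ f₂ - crit₂ m f₁ f₂) ≠ 0 ∧
      y = (insert (S x.1 (crit₁ m f₁ f₂ - crit₂ m f₁ f₂)) x.1,
        x.2.erase s(f₁, f₂) ∪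
          x.1.image fun g => s(g, S x.1 (crit₁ m f₁ f₂ - crit₂ m f₁ f₂)))))

lemma rk_zero : rk 0 = 0 := by simp [rk]

lemma exists_nf (F : Finset (R n)) (g : R n) :
    ∃ h, ReflTransGen (Red m F) g h ∧ Irr m F h := by
  have hwf : WellFounded (Finsupp.Lex (fun a b : m.syn => b < a)
      (fun a b : ℤ => rk a < rk b)) :=
    Finsupp.Lex.wellFounded' (fun a => by simp [rk_zero]) (measure rk).wf
      (wellFounded_lt (α := m.syn))
  let e : R n → (m.syn →₀ ℤ) := fun g =>
    Finsupp.onFinset (g.support.map m.toSyn.toEquiv.toEmbedding)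
      (fun t => coeff (m.toSyn.symm t) g) fun t ht => by
        simpa [Finset.mem_map_equiv] using ht
  have he : ∀ g t, e g t = coeff (m.toSyn.symm t) g := fun _ _ => rfl
  have hw : WellFounded fun h g : R n => Red m F g h := by
    refine Subrelation.wf ?_ (InvImage.wf e hwf)
    rintro h g ⟨f, -, -, b, u, -, h2, rfl⟩
    refine ⟨m.toSyn (u + m.degree f), fun j hj => ?_, ?_⟩
    · rw [he, he, coeff_sub, mul_assoc, coeff_C_mul]
      have : coeff (m.toSyn.symm j) (monomial u (1 : ℤ) * f) = 0 := by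
        refine m.coeff_eq_zero_of_lt (lt_of_le_of_lt ?_ (by simpa using hj))
        refine m.degree_mul_le.trans ?_
        simp only [map_add]
        exact add_le_add_left (m.degree_monomial_le _) _
      simp [this]
    · simp only [he, AddEquiv.symm_apply_apply, coeff_sub, mul_assoc, coeff_C_mul,
        coeff_monomial_mul, one_mul]
      exact h2
  induction g using hw.induction with
  | _ g ih =>
    by_cases h : Irr m F g
    · exact ⟨g, ReflTransGen.refl, h⟩
    · simp only [Irr, not_forall, not_not] at h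
      obtain ⟨k, hk⟩ := h
      obtain ⟨l, h1, h2⟩ := ih k hk
      exact ⟨l, ReflTransGen.head hk h1, h2⟩

lemma irr_zero (F : Finset (R n)) : Irr m F 0 := by
  rintro h ⟨f, -, -, b, u, h1, -⟩
  simp at h1

lemma red_C {F : Finset (R n)} {c : ℤ} (hc : C c ∈ F) (hc0 : c ≠ 0) (a b d : ℤ) (ha : a ≠ 0)
    (hd : d = a - b * c) (h : rk d < rk a) : Red m F (C a) (C d) := by
  refine ⟨C c, hc, by simpa using hc0, b, 0, ?_, ?_, ?_⟩
  · rwa [m.degree_C, add_zero, coeff_zero_C]
  · rwa [m.degree_C, add_zero, coeff_zero_C, m.leadingCoeff_C, ← hd]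
  · simp [hd]

lemma crit_C (a b : ℤ) : crit₁ m (C a) (C b) - crit₂ m (C a) (C b) =
    C (M (LCR a b) b * b - M (LCR a b) a * a) := by
  rw [crit₁, crit₂, m.degree_C, m.degree_C, m.leadingCoeff_C, m.leadingCoeff_C]
  simp

lemma M1 : M (-3) 2 = -1 := by
  rw [M, if_neg (by decide), if_pos (by decide), M, if_neg (by decide), if_neg (by decide)]
  rfl

lemma M2 : M (-3) 5 = -1 := by
  rw [M, if_neg (by decide), if_pos (by decide), M, if_neg (by decide), if_neg (by decide)]
  rfl

open Classical in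
theorem result (n : ℕ) (m : MonomialOrder (Fin n)) :
    ∃ (F : Finset (R n)) (S : Finset (R n) → R n → R n), (0 : R n) ∉ F ∧ IsNFA m S ∧
      ∀ B₀ ∈ ({F.sym2, F.sym2.filter fun p => ¬ p.IsDiag} : Set (Finset (Sym2 (R n)))),
        (∃ G, ReflTransGen (Step m S) (F, B₀) (G, ∅)) ∧
        ∀ G, ReflTransGen (Step m S) (F, B₀) (G, ∅) → ¬ IsGB m G := by
  let F : Finset (R n) := {C 2, C 5}
  have h2 : (C 2 : R n) ∈ F := by simp [F]
  have h5 : (C 5 : R n) ∈ F := by simp [F]
  choose N hN using exists_nf m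
  let S : Finset (R n) → R n → R n := fun G g =>
    if G = F ∧ (g = C 3 ∨ g = C (-3) ∨ g = 0) then 0 else N G g
  have hS : IsNFA m S := by
    intro G g
    simp only [S]
    split_ifs with h
    · obtain ⟨rfl, h⟩ := h
      refine ⟨?_, irr_zero m _⟩
      rcases h with rfl | rfl | rfl
      · exact (ReflTransGen.single (red_C m h5 (by decide) 3 1 (-2) (by decide) rfl
          (by decide))).tail (by
            simpa using red_C m h2 (by decide) (-2) (-1) 0 (by decide) rfl (by decide))
      · exact (ReflTransGen.single (red_C m h5 (by decide) (-3) (-1) 2 (by decide) rfl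
          (by decide))).tail (by
            simpa using red_C m h2 (by decide) 2 1 0 (by decide) rfl (by decide))
      · exact ReflTransGen.refl
    · exact hN G g
  have hz : ∀ f₁ ∈ F, ∀ f₂ ∈ F, S F (crit₁ m f₁ f₂ - crit₂ m f₁ f₂) = 0 := by
    intro f₁ h1 f₂ h2
    refine if_pos ⟨rfl, ?_⟩
    simp only [F, Finset.mem_insert, Finset.mem_singleton] at h1 h2
    have e1 : LCR 2 5 = -3 := by decide
    have e2 : LCR 5 2 = -3 := by decide
    rcases h1 with rfl | rfl <;> rcases h2 with rfl | rfl <;> rw [crit_C]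
    · simp
    · rw [e1, M1, M2]
      exact Or.inr (Or.inl rfl)
    · rw [e2, M1, M2]
      exact Or.inl rfl
    · simp
  have hinv : ∀ B₀ ⊆ F.sym2, ∀ y, ReflTransGen (Step m S) (F, B₀) y → y.1 = F ∧ y.2 ⊆ F.sym2 := by
    intro B₀ hB y hy
    induction hy with
    | refl => exact ⟨rfl, hB⟩
    | tail _ hs ih =>
      obtain ⟨f₁, f₂, hm, h⟩ := hs
      have hm' := Finset.mk_mem_sym2_iff.1 (ih.2 hm)
      rcases h with ⟨-, rfl⟩ | ⟨h, -⟩
      · exact ⟨ih.1, (Finset.erase_subset _ _).trans ih.2⟩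
      · rw [ih.1] at h
        exact absurd (hz _ hm'.1 _ hm'.2) h
  have hrun : ∀ B₀ ⊆ F.sym2, ReflTransGen (Step m S) (F, B₀) (F, ∅) := by
    intro B₀
    induction B₀ using Finset.induction_on with
    | empty => exact fun _ => ReflTransGen.refl
    | insert p B hp ih =>
      intro hB
      refine ReflTransGen.head ?_ (ih ((Finset.subset_insert _ _).trans hB))
      induction p using Sym2.ind with
      | _ f₁ f₂ =>
        have hm' := Finset.mk_mem_sym2_iff.1 (hB (Finset.mem_insert_self _ _))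
        exact ⟨f₁, f₂, Finset.mem_insert_self _ _,
          Or.inl ⟨hz _ hm'.1 _ hm'.2, by simp [Finset.erase_insert hp]⟩⟩
  have hGB : ¬ IsGB m F := by
    intro h
    have hi : Irr m F (C (-1)) := by
      rintro k ⟨f, hf, -, b, u, h1, h3, -⟩
      simp only [F, Finset.mem_insert, Finset.mem_singleton] at hf
      rcases hf with rfl | rfl
      all_goals
        rw [m.degree_C, add_zero, coeff_C] at h1 h3
        rw [m.leadingCoeff_C] at h3
        split_ifs at h1 h3
        · simp only [rk] at h3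
          split_ifs at h3 <;> omega
        · exact h1 rfl
    have := (h (C 5)).unique
      ⟨ReflTransGen.single (red_C m h5 (by decide) 5 1 0 (by decide) rfl (by decide)),
        by simpa using irr_zero m F⟩
      ⟨ReflTransGen.single (red_C m h2 (by decide) 5 3 (-1) (by decide) rfl (by decide)), hi⟩
    have := C_injective (Fin n) ℤ this
    omega
  refine ⟨F, S, ?_, hS, fun B₀ hB => ?_⟩
  · simp only [F, Finset.mem_insert, Finset.mem_singleton, not_or]
    exact ⟨fun h => by simpa using C_eq_zero.1 h.symm, fun h => by simpa using C_eq_zero.1 h.symm⟩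
  have hB' : B₀ ⊆ F.sym2 := by
    rcases hB with rfl | rfl
    · exact Finset.Subset.refl _
    · exact Finset.filter_subset _ _
  refine ⟨⟨F, hrun B₀ hB'⟩, fun G hG => ?_⟩
  have : G = F := (hinv B₀ hB' _ hG).1
  rw [this]
  exact hGB

end Pool.Agent.Results.MP_698df0_al.Fails
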